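import Pool.Agent.R331.TL.Upper

set_option autoImplicit false

namespace Pool.Agent.Results.MP_26f5de_nt.FullDimension

open Pool.Agent.R331.TL

/-- For every finite field `F` and every real `λ > 0` the set `M(f_λ)` of counterexamples to the
`t`-adic Littlewood conjecture with growth function `log^{1+λ}` has Hausdorff dimension `1`. -/
theorem result : ∀ (F : Type) [Field F] [Fintype F] (lam : ℝ), 0 < lam → dimH (M F (fl lam)) = 1 :=
  fun _ _ _ _ h => dim_eq h

end Pool.Agent.Results.MP_26f5de_nt.FullDimension
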